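import Pool.Agent.Helper88_GEN.CoreC

/-!
# Squad GEN, row COR: the relative functional equation vanishes at `s₀`
-/

set_option autoImplicit false
set_option linter.unusedVariables false
set_option linter.unusedSectionVars false

namespace Pool.Agent.GEN.H88

open MvPolynomial Pool.Agent.Helper6_Mono Pool.Agent.Helper30_Simp Pool.Agent.Helper30_Simp2

/-! ### the ideal of the variables -/

section ideal

variable {P A W : Type} [Fintype P] [Fintype A] [Fintype W] (lam : P → W → ℚ)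
  (a b : A → W → ℕ) (g : W → ℚ)

/-- the ideal of the variables -/
noncomputable def Iv : Ideal (NR lam a b g) :=
  (idealOfVars W ℂ).map (pr2 lam a b g).toRingHom

theorem Iv_pow : Iv lam a b g ^ (Fintype.card P + Fintype.card A + 1) = ⊥ := by
  classical
  unfold Iv
  rw [← Ideal.map_pow, pow_idealOfVars_eq_span, Ideal.map_span, Ideal.span_eq_bot]
  rintro _ ⟨_, ⟨α, hα, rfl⟩, rfl⟩
  change pr2 lam a b g (monomial α 1) = 0
  rw [pr2_zero]
  refine Ideal.subset_span (Or.inr ⟨α, ?_, rfl⟩)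
  have h1 : α.degree = Fintype.card P + Fintype.card A + 1 := hα
  rw [← h1, Finsupp.degree_eq_sum]

theorem Xw_mem_Iv (ρ : W) : Xw lam a b g ρ ∈ Iv lam a b g :=
  Ideal.mem_map_of_mem _ (Ideal.subset_span ⟨ρ, rfl⟩)

theorem li_mem_Iv (v : W → ℚ) : li lam a b g v ∈ Iv lam a b g := by
  unfold li
  exact Ideal.sum_mem _ fun ρ _ => Ideal.mul_mem_left _ _ (Xw_mem_Iv lam a b g ρ)

end ideal

/-! ### polynomials in the shift -/

section shift

variable {σ : Type} [Fintype σ] {E : Type} [CommRing E] [Algebra ℂ E]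

theorem pow_shift (z : σ) (n : ℕ) (F : (σ → ℤ) → E) (w : σ → ℤ) :
    ((actF σ E (X z)) ^ n) F w = F (fun i => w i + (n : ℤ) * ((Finsupp.single z 1 : σ →₀ ℕ) i : ℤ)) := by
  induction n generalizing w with
  | zero => simp
  | succ n ih =>
    rw [pow_succ']
    change (actF σ E (X z)) (((actF σ E (X z)) ^ n) F) w = _
    rw [actF_X, ih]
    congr 1
    funext i
    push_cast
    ring

theorem aeval_shift (z : σ) (p : Polynomial E) (F : (σ → ℤ) → E) (w : σ → ℤ) :
    (Polynomial.aeval (actF σ E (X z)) p) F w = ∑ n ∈ Finset.range (p.natDegree + 1),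
      p.coeff n * F (fun i => w i + (n : ℤ) * ((Finsupp.single z 1 : σ →₀ ℕ) i : ℤ)) := by
  rw [Polynomial.aeval_eq_sum_range, LinearMap.sum_apply, Finset.sum_apply]
  refine Finset.sum_congr rfl fun n _ => ?_
  rw [LinearMap.smul_apply, Pi.smul_apply, smul_eq_mul, pow_shift]

theorem aeval_mem (N : Submodule E ((σ → ℤ) → E)) (T : Module.End E ((σ → ℤ) → E))
    (h : ∀ F ∈ N, T F ∈ N) (p : Polynomial E) : ∀ F ∈ N, (Polynomial.aeval T p) F ∈ N := by
  intro F hF
  have hn : ∀ n : ℕ, (T ^ n) F ∈ N := by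
    intro n
    induction n with
    | zero => simpa using hF
    | succ n ih =>
      rw [pow_succ']
      exact h _ ih
  rw [Polynomial.aeval_eq_sum_range, LinearMap.sum_apply]
  refine Submodule.sum_mem _ fun n _ => ?_
  rw [LinearMap.smul_apply]
  exact N.smul_mem _ (hn n)

end shift

namespace BZ

open scoped Classical

variable {σ : Type} [Fintype σ] {f : MvPolynomial σ ℂ} {z : σ} {κ : σ → ℕ} (B : BZ f.support z κ)

/-- the ideal of the variables -/
noncomputable def Ie : Ideal B.E := Iv B.lW B.aW B.bW B.gW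

theorem mu_mem (α : σ →₀ ℕ) : B.mu α ∈ B.Ie := by
  unfold mu
  split_ifs with h
  · exact Xw_mem_Iv _ _ _ _ _
  · exact Ideal.neg_mem_iff _ |>.2 (li_mem_Iv _ _ _ _ _)

theorem card_le : Fintype.card B.Pq + Fintype.card B.Aq + 1 ≤ f.support.card + 1 := by
  rw [Fintype.card_coe, Fintype.card_coe, ← Finset.card_union_of_disjoint]
  · apply Nat.add_le_add_right
    apply Finset.card_le_card
    intro α hα
    rcases Finset.mem_union.1 hα with h | h
    · exact B.Pf_sub (B.mem_Pq.1 h).1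
    · exact (B.D.ap α h).1.1
  · rw [Finset.disjoint_left]
    intro α h1 h2
    exact (B.mem_Pq.1 h1).2 h2

/-- the relative functional equation vanishes at `s₀` -/
theorem root (hC : ChainStmtA) (hT : TrnStmt) (hA : Alg2Stmt) (hz : κ z ≠ 0)
    (hκ : ∃ j, j ≠ z ∧ κ j ≠ 0) (d : ℕ) (be : ℕ → Polynomial ℂ)
    (hd : (f.support.card + 1) * d * κ z < B.N) (hbe : RelBS f z d be) :
    ∀ e ≤ d, (be e).eval (∑ α ∈ f.support, B.m α) = 0 := by
  by_contra hcon
  push Not at hcon
  set s₀ : ℂ := ∑ α ∈ f.support, B.m α with hs₀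
  have hex : ∃ e, e ≤ d ∧ (be e).eval s₀ ≠ 0 := hcon
  set e₀ := Nat.find hex with he₀
  obtain ⟨he₀d, he₀ne⟩ := Nat.find_spec hex
  have hmin : ∀ e < e₀, (be e).eval s₀ = 0 := by
    intro e he
    have h1 := Nat.find_min hex he
    by_contra h2
    exact h1 ⟨(le_of_lt he).trans he₀d, h2⟩
  -- the sum of the exponents
  set ν : B.E := ∑ α ∈ f.support, B.mu α with hν
  have hνI : ν ∈ B.Ie := Ideal.sum_mem _ fun α _ => B.mu_mem α
  have hs : ∑ α ∈ f.support, B.th α = algebraMap ℂ B.E s₀ + ν := by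
    unfold th
    rw [Finset.sum_add_distrib, map_sum]
  have hIpow : B.Ie ^ (Fintype.card B.Pq + Fintype.card B.Aq + 1) = ⊥ :=
    Iv_pow B.lW B.aW B.bW B.gW
  have hνnil : IsNilpotent ν := by
    refine ⟨Fintype.card B.Pq + Fintype.card B.Aq + 1, ?_⟩
    have h1 := Ideal.pow_mem_pow hνI (Fintype.card B.Pq + Fintype.card B.Aq + 1)
    rw [hIpow] at h1
    exact h1
  have h1 := hC σ B.E f z B.th B.ph (fun α hα t => B.ph_succ α hα t) B.finite_idx (fun l => by
      rw [hs]
      have h2 : algebraMap ℂ B.E s₀ + ν - (l : B.E) = algebraMap ℂ B.E (s₀ - l) + ν := by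
        rw [map_sub, map_natCast]; ring
      rw [h2]
      exact isUnit_alg_add (sub_ne_zero.2 (B.s0_ne hκ l)) hνnil)
    B.nv (fun j => rfl) B.N0 B.N0_act (fun j hj => B.N0_d j hj) B.psi_neg_mem d be hbe
  set c : ℕ → B.E := fun e => Polynomial.aeval (∑ α ∈ f.support, B.th α) (be e) with hc
  have hcval : ∀ e, ∃ r, c e = algebraMap ℂ B.E ((be e).eval s₀) + ν * r := by
    intro e
    have h3 := Polynomial.sub_dvd_eval_sub (algebraMap ℂ B.E s₀ + ν) (algebraMap ℂ B.E s₀)
      ((be e).map (algebraMap ℂ B.E))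
    rw [add_sub_cancel_left, Polynomial.eval_map_algebraMap, Polynomial.eval_map_algebraMap,
      Polynomial.aeval_algebraMap_apply, Polynomial.coe_aeval_eq_eval] at h3
    obtain ⟨r, hr⟩ := h3
    refine ⟨r, ?_⟩
    show Polynomial.aeval (∑ α ∈ f.support, B.th α) (be e) = _
    rw [hs, ← hr]
    ring
  have hc0 : IsUnit (c e₀) := by
    obtain ⟨r, hr⟩ := hcval e₀
    rw [hr]
    exact isUnit_alg_add he₀ne (Commute.isNilpotent_mul_right (Commute.all _ _) hνnil)
  have hclt : ∀ e < e₀, c e ∈ B.Ie := by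
    intro e he
    obtain ⟨r, hr⟩ := hcval e
    rw [hr, hmin e he, map_zero, zero_add]
    exact Ideal.mul_mem_right _ _ hνI
  obtain ⟨v, U, hU, hvU⟩ := hT B.E B.Ie _ hIpow d c e₀ he₀d hc0 hclt
  set k := Fintype.card B.Pq + Fintype.card B.Aq + 1 with hk
  set T := actF σ B.E (X z) with hTdef
  -- the functional equation in terms of the shift
  have h2 : (Polynomial.aeval T (∑ e ∈ Finset.range (d + 1),
      Polynomial.C (c e) * Polynomial.X ^ e)) (psiF f B.ph 0) ∈ B.N0 := by
    have h3 : (Polynomial.aeval T (∑ e ∈ Finset.range (d + 1),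
        Polynomial.C (c e) * Polynomial.X ^ e)) (psiF f B.ph 0)
        = ∑ e ∈ Finset.range (d + 1), c e • actF σ B.E (X z ^ e) (psiF f B.ph 0) := by
      rw [map_sum, LinearMap.sum_apply]
      refine Finset.sum_congr rfl fun e _ => ?_
      rw [map_mul, map_pow, Polynomial.aeval_X, Polynomial.aeval_C, map_pow]
      rfl
    rw [h3]
    exact h1
  have h4 : (Polynomial.aeval T (Polynomial.X ^ (k * e₀) * U)) (psiF f B.ph 0) ∈ B.N0 := by
    rw [← hvU, mul_comm, map_mul]
    exact aeval_mem B.N0 T (fun F hF => B.N0_act z F hF) v _ h2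
  have h5 := h4 (fun i => if i = z then -((k * e₀ : ℕ) : ℤ) else 0) (by
    have h6 : k * e₀ * κ z ≤ (f.support.card + 1) * d * κ z := by
      apply Nat.mul_le_mul_right
      exact Nat.mul_le_mul B.card_le he₀d
    have h7 : k * e₀ * κ z < B.N := lt_of_le_of_lt h6 hd
    rw [if_pos rfl]
    have h8 : ((k * e₀ * κ z : ℕ) : ℤ) < (B.N : ℤ) := by exact_mod_cast h7
    push_cast at h8 ⊢
    linarith [mul_comm ((k : ℤ) * e₀) (κ z : ℤ)])
  have h6 : B.Aw (fun i => if i = z then -((k * e₀ : ℕ) : ℤ) else 0) = ∅ := by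
    unfold Aw
    rw [Finset.filter_eq_empty_iff]
    intro j _
    have hj := (B.mem_Jf.1 j.2).2
    simp only
    rw [if_neg hj]
    exact lt_irrefl _
  rw [h6, Finset.prod_empty, one_mul, map_mul, map_pow, Polynomial.aeval_X] at h5
  change (T ^ (k * e₀)) ((Polynomial.aeval T U) (psiF f B.ph 0)) _ = 0 at h5
  rw [pow_shift, aeval_shift] at h5
  have h7 : ∀ n : ℕ, (fun i => (fun i => (fun i => if i = z then -((k * e₀ : ℕ) : ℤ) else 0) i
      + ((k * e₀ : ℕ) : ℤ) * ((Finsupp.single z 1 : σ →₀ ℕ) i : ℤ)) i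
      + (n : ℤ) * ((Finsupp.single z 1 : σ →₀ ℕ) i : ℤ)) = fun i => if i = z then (n : ℤ) else 0 := by
    intro n
    funext i
    by_cases hi : i = z
    · subst hi
      simp
    · simp [hi]
  simp only [h7] at h5
  rw [Finset.sum_eq_single 0] at h5
  · have h8 : (fun i : σ => if i = z then ((0 : ℕ) : ℤ) else 0) = 0 := by
      funext i
      simp
    rw [h8] at h5
    exact B.psi_zero hA ((hU.mul_right_eq_zero).1 h5)
  · intro n _ hn
    rw [B.psi_pos hz n hn, mul_zero]
  · intro h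
    exact absurd (Finset.mem_range.2 (Nat.succ_pos _)) h

end BZ

theorem cor (hA : Alg2Stmt) (hD : BDataStmtA) (hC : ChainStmtA) (hT : TrnStmt) : CorStmt := by
  intro σ _ _ F z κ D hz hκ hS hS' d be hd hbe e he
  obtain ⟨B, hB⟩ := exists_BZ hD D hS hS'
  have hN : B.N = D.N := by
    show B.D.N = D.N
    rw [hB]
  have h3 : ((B.N : ℕ) : ℂ) ≠ 0 := B.N_ne
  have hs : ∑ α ∈ F.support, B.m α = -((∑ i ∈ Finset.univ.erase z, (κ i : ℂ)) / (D.N : ℕ)) := by
    rw [← hN, ← neg_div, eq_div_iff h3, mul_comm]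
    have h4 := B.sum_m_eq
    push_cast at h4
    rw [h4]
    congr 1
    refine Finset.sum_congr ?_ fun _ _ => rfl
    ext i
    simp
  rw [← hs]
  exact B.root hC hT hA hz hκ d be (by rw [hN]; exact hd) hbe e he

end Pool.Agent.GEN.H88
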