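import Pool.Agent.GEN.StmtsU

/-!
# Squad GEN, row GRB: a Groebner lemma
-/

set_option autoImplicit false

open MvPolynomial

namespace Pool.Agent.GEN.H88

/-- cancellation of the leading terms -/
lemma sub_lt {Y A : Type} [CommRing A] (m : MonomialOrder Y) {f g : MvPolynomial Y A}
    (hd : m.degree f = m.degree g) (hc : m.leadingCoeff f = m.leadingCoeff g) :
    f - g = 0 ∨ m.toSyn (m.degree (f - g)) < m.toSyn (m.degree f) := by
  by_cases h0 : f - g = 0
  · left; exact h0
  right
  have h1 : m.toSyn (m.degree (f - g)) ≤ m.toSyn (m.degree f) := by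
    refine le_trans m.degree_sub_le ?_
    rw [← hd, sup_idem]
  rcases lt_or_eq_of_le h1 with h2 | h2
  · exact h2
  · exfalso
    have h3 : m.degree (f - g) = m.degree f := m.toSyn.injective h2
    have h4 : (f - g).coeff (m.degree (f - g)) ≠ 0 := m.coeff_degree_ne_zero_iff.mpr h0
    apply h4
    rw [h3, coeff_sub]
    have h5 : g.coeff (m.degree f) = g.coeff (m.degree g) := by rw [hd]
    rw [h5]
    exact sub_eq_zero.mpr hc

/-- the degree of `L y p` -/
lemma deg_L {Y A : Type} [CommRing A] [IsDomain A] [LinearOrder Y] [WellFoundedGT Y]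
    (L : Y → MvPolynomial Y A →ₗ[A] MvPolynomial Y A)
    (hL : ∀ y p, (L y p - X y * p).totalDegree ≤ p.totalDegree) (y : Y) (p : MvPolynomial Y A)
    (hp : p ≠ 0) :
    L y p ≠ 0 ∧ (MonomialOrder.degLex (σ := Y)).degree (L y p) =
      (MonomialOrder.degLex (σ := Y)).degree p + Finsupp.single y 1 ∧
      (MonomialOrder.degLex (σ := Y)).leadingCoeff (L y p) =
        (MonomialOrder.degLex (σ := Y)).leadingCoeff p := by
  have hX : (X y : MvPolynomial Y A) ≠ 0 := X_ne_zero y
  have h1 : (MonomialOrder.degLex (σ := Y)).degree (X y * p) =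
      Finsupp.single y 1 + (MonomialOrder.degLex (σ := Y)).degree p := by
    rw [MonomialOrder.degree_mul hX hp, MonomialOrder.degree_X]
  have h2 : (MonomialOrder.degLex (σ := Y)).leadingCoeff (X y * p) =
      (MonomialOrder.degLex (σ := Y)).leadingCoeff p := by
    rw [MonomialOrder.leadingCoeff_mul, MonomialOrder.leadingCoeff_X, one_mul]
  obtain ⟨r, hr⟩ : ∃ r, r = L y p - X y * p := ⟨_, rfl⟩
  have h3 : L y p = X y * p + r := by rw [hr]; ring
  have h4 : (MonomialOrder.degLex (σ := Y)).toSyn ((MonomialOrder.degLex (σ := Y)).degree r) <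
      (MonomialOrder.degLex (σ := Y)).toSyn
        ((MonomialOrder.degLex (σ := Y)).degree (X y * p)) := by
    rw [MonomialOrder.degLex_lt_iff, Finsupp.DegLex.lt_iff]
    left
    rw [ofDegLex_toDegLex, ofDegLex_toDegLex, degree_degLexDegree, degree_degLexDegree,
      totalDegree_mul_of_isDomain hX hp, totalDegree_X, hr]
    have := hL y p
    omega
  have h5 : (MonomialOrder.degLex (σ := Y)).degree (L y p) =
      (MonomialOrder.degLex (σ := Y)).degree p + Finsupp.single y 1 := by
    rw [h3, MonomialOrder.degree_add_of_lt h4, h1, add_comm]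
  have h6 : (MonomialOrder.degLex (σ := Y)).leadingCoeff (L y p) =
      (MonomialOrder.degLex (σ := Y)).leadingCoeff p := by
    rw [h3, MonomialOrder.leadingCoeff_add_of_lt h4, h2]
  refine ⟨?_, h5, h6⟩
  rw [← (MonomialOrder.degLex (σ := Y)).leadingCoeff_ne_zero_iff, h6]
  exact (MonomialOrder.degLex (σ := Y)).leadingCoeff_ne_zero_iff.mpr hp

/-- shifted elements of `J` -/
lemma shift {Y A : Type} [CommRing A] [IsDomain A] [LinearOrder Y] [WellFoundedGT Y]
    (L : Y → MvPolynomial Y A →ₗ[A] MvPolynomial Y A)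
    (hL : ∀ y p, (L y p - X y * p).totalDegree ≤ p.totalDegree)
    (J : Submodule A (MvPolynomial Y A)) (hJ : ∀ y, ∀ p ∈ J, L y p ∈ J) (β : Y →₀ ℕ) :
    ∀ g ∈ J, g ≠ 0 → ∃ g' ∈ J, g' ≠ 0 ∧ (MonomialOrder.degLex (σ := Y)).degree g' =
      (MonomialOrder.degLex (σ := Y)).degree g + β ∧
      (MonomialOrder.degLex (σ := Y)).leadingCoeff g' =
        (MonomialOrder.degLex (σ := Y)).leadingCoeff g := by
  induction β using Finsupp.induction_linear with
  | zero =>
    intro g hg h0
    exact ⟨g, hg, h0, by rw [add_zero], rfl⟩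
  | add a b iha ihb =>
    intro g hg h0
    obtain ⟨g1, h1, h2, h3, h4⟩ := iha g hg h0
    obtain ⟨g2, h5, h6, h7, h8⟩ := ihb g1 h1 h2
    exact ⟨g2, h5, h6, by rw [h7, h3, add_assoc], by rw [h8, h4]⟩
  | single y n =>
    induction n with
    | zero =>
      intro g hg h0
      exact ⟨g, hg, h0, by rw [Finsupp.single_zero, add_zero], rfl⟩
    | succ n ih =>
      intro g hg h0
      obtain ⟨g1, h1, h2, h3, h4⟩ := ih g hg h0
      obtain ⟨h5, h6, h7⟩ := deg_L L hL y g1 h2
      refine ⟨L y g1, hJ y g1 h1, h5, ?_, by rw [h7, h4]⟩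
      rw [h6, h3, add_assoc, Finsupp.single_add]

/-- **Row GRB.** -/
theorem grb : GrbStmt := by
  classical
  intro Y A _ _ _ L hL J hJ
  obtain ⟨hfy⟩ := nonempty_fintype Y
  let _ : LinearOrder Y := LinearOrder.lift' (Fintype.equivFin Y) (Fintype.equivFin Y).injective
  obtain ⟨m, hm⟩ : ∃ m : MonomialOrder Y, m = MonomialOrder.degLex := ⟨_, rfl⟩
  have hshift : ∀ (β : Y →₀ ℕ), ∀ g ∈ J, g ≠ 0 → ∃ g' ∈ J, g' ≠ 0 ∧ m.degree g' =
      m.degree g + β ∧ m.leadingCoeff g' = m.leadingCoeff g := by
    intro β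
    rw [hm]
    exact shift L hL J hJ β
  obtain ⟨E, hE⟩ : ∃ E : Set (Y →₀ ℕ), E = {a | ∃ p ∈ J, p ≠ 0 ∧ m.degree p = a} := ⟨_, rfl⟩
  have hEmem : ∀ a, a ∈ E ↔ ∃ p ∈ J, p ≠ 0 ∧ m.degree p = a := by
    intro a; rw [hE]; exact Iff.rfl
  have hpwo : E.IsPWO := Set.isPWO_of_wellQuasiOrderedLE E
  have hfin : {a | Minimal (· ∈ E) a}.Finite :=
    (setOfPred_minimal_antichain _).finite_of_partiallyWellOrderedOn
      (hpwo.mono (setOfPred_minimal_subset _))
  have hg : ∀ a : Y →₀ ℕ, ∃ g : MvPolynomial Y A, a ∈ E → g ∈ J ∧ g ≠ 0 ∧ m.degree g = a := by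
    intro a
    by_cases ha : a ∈ E
    · obtain ⟨p, h1, h2, h3⟩ := (hEmem a).mp ha
      exact ⟨p, fun _ => ⟨h1, h2, h3⟩⟩
    · exact ⟨0, fun h => absurd h ha⟩
  choose g hg using hg
  obtain ⟨G, hG⟩ : ∃ G : Finset (Y →₀ ℕ), G = hfin.toFinset := ⟨_, rfl⟩
  have hGE : ∀ a ∈ G, a ∈ E := by
    intro a ha
    rw [hG, Set.Finite.mem_toFinset] at ha
    exact ha.1
  obtain ⟨h, hh⟩ : ∃ h : A, h = ∏ a ∈ G, m.leadingCoeff (g a) := ⟨_, rfl⟩
  have hh0 : h ≠ 0 := by
    rw [hh, Finset.prod_ne_zero_iff]
    intro a ha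
    exact m.leadingCoeff_ne_zero_iff.mpr (hg a (hGE a ha)).2.1
  refine ⟨h, Eᶜ, hh0, ?_, ?_, ?_⟩
  · -- decomposition
    have key : ∀ (s : m.syn) (p : MvPolynomial Y A), m.toSyn (m.degree p) = s →
        ∃ (e : ℕ) (j q : MvPolynomial Y A), j ∈ J ∧ (∀ k ∈ q.support, k ∈ Eᶜ) ∧
          C (h ^ e) * p = j + q := by
      intro s
      induction s using WellFoundedLT.induction with
      | ind s ih =>
      intro p hps
      by_cases hp0 : p = 0
      · exact ⟨0, 0, 0, J.zero_mem, by simp, by rw [hp0]; simp⟩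
      have hlc : m.leadingCoeff p ≠ 0 := m.leadingCoeff_ne_zero_iff.mpr hp0
      by_cases hE1 : m.degree p ∈ E
      · -- reduction
        obtain ⟨a, hale, hamin⟩ := exists_minimal_le_of_wellFoundedLT (· ∈ E) (m.degree p) hE1
        have haG : a ∈ G := by
          rw [hG, Set.Finite.mem_toFinset]
          exact hamin
        obtain ⟨β, hβ⟩ := exists_add_of_le hale
        obtain ⟨hgJ, hg0, hgd⟩ := hg a hamin.1
        obtain ⟨g', hg'J, hg'0, hg'd, hg'c⟩ := hshift β (g a) hgJ hg0
        rw [hgd, ← hβ] at hg'd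
        obtain ⟨h', hh'⟩ : ∃ h' : A, h' = ∏ b ∈ G.erase a, m.leadingCoeff (g b) := ⟨_, rfl⟩
        have hhh : h = m.leadingCoeff (g a) * h' := by
          rw [hh, hh', Finset.mul_prod_erase G (fun b => m.leadingCoeff (g b)) haG]
        have hh'0 : h' ≠ 0 := by
          intro h0
          rw [hhh, h0, mul_zero] at hh0
          exact hh0 rfl
        have hc0 : m.leadingCoeff p * h' ≠ 0 := mul_ne_zero hlc hh'0
        have hC1 : (C h : MvPolynomial Y A) ≠ 0 := by
          rw [Ne, C_eq_zero]; exact hh0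
        have hC2 : (C (m.leadingCoeff p * h') : MvPolynomial Y A) ≠ 0 := by
          rw [Ne, C_eq_zero]; exact hc0
        have hd1 : m.degree (C h * p) = m.degree p := by
          rw [MonomialOrder.degree_mul hC1 hp0, MonomialOrder.degree_C, zero_add]
        have hd2 : m.degree (C (m.leadingCoeff p * h') * g') = m.degree p := by
          rw [MonomialOrder.degree_mul hC2 hg'0, MonomialOrder.degree_C, zero_add, hg'd]
        have hl1 : m.leadingCoeff (C h * p) = m.leadingCoeff (C (m.leadingCoeff p * h') * g') := by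
          rw [MonomialOrder.leadingCoeff_mul, MonomialOrder.leadingCoeff_mul,
            MonomialOrder.leadingCoeff_C, MonomialOrder.leadingCoeff_C, hg'c, hhh]
          ring
        have hjJ : ∀ c : A, C c * (C (m.leadingCoeff p * h') * g') ∈ J := by
          intro c
          rw [← mul_assoc, ← C_mul, ← smul_eq_C_mul]
          exact J.smul_mem _ hg'J
        rcases sub_lt m (hd1.trans hd2.symm) hl1 with h1 | h1
        · refine ⟨1, C (m.leadingCoeff p * h') * g', 0, ?_, by simp, ?_⟩
          · have := hjJ 1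
            rwa [C_1, one_mul] at this
          · rw [pow_one, add_zero]
            exact sub_eq_zero.mp h1
        · rw [hd1, hps] at h1
          obtain ⟨e, j, q, hj, hq, he⟩ := ih _ h1 _ rfl
          refine ⟨e + 1, j + C (h ^ e) * (C (m.leadingCoeff p * h') * g'), q,
            J.add_mem hj (hjJ _), hq, ?_⟩
          have h2 : C (h ^ (e + 1)) * p = C (h ^ e) * (C h * p -
              C (m.leadingCoeff p * h') * g') +
              C (h ^ e) * (C (m.leadingCoeff p * h') * g') := by
            rw [pow_succ, C_mul]; ring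
          rw [h2, he]
          ring
      · -- remove the leading term
        have hd : m.degree p = m.degree (monomial (m.degree p) (m.leadingCoeff p)) := by
          rw [MonomialOrder.degree_monomial, if_neg hlc]
        have hl : m.leadingCoeff p =
            m.leadingCoeff (monomial (m.degree p) (m.leadingCoeff p)) := by
          rw [MonomialOrder.leadingCoeff_monomial]
        have hsup : ∀ c : A, ∀ k ∈ (C c * monomial (m.degree p) (m.leadingCoeff p)).support,
            k ∈ Eᶜ := by
          intro c k hk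
          rw [C_mul_monomial] at hk
          have h2 := Finset.mem_singleton.mp (support_monomial_subset hk)
          rw [h2]
          exact hE1
        rcases sub_lt m hd hl with h1 | h1
        · refine ⟨0, 0, C 1 * monomial (m.degree p) (m.leadingCoeff p), J.zero_mem, hsup 1, ?_⟩
          rw [pow_zero, C_1, one_mul, one_mul, zero_add]
          exact sub_eq_zero.mp h1
        · rw [hps] at h1
          obtain ⟨e, j, q, hj, hq, he⟩ := ih _ h1 _ rfl
          refine ⟨e, j, q + C (h ^ e) * monomial (m.degree p) (m.leadingCoeff p), hj, ?_, ?_⟩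
          · intro k hk
            rcases Finset.mem_union.mp (support_add hk) with h2 | h2
            · exact hq k h2
            · exact hsup _ k h2
          · rw [← add_assoc, ← he]
            ring
    intro p
    exact key _ p rfl
  · intro q hq hsup
    by_contra h0
    exact hsup _ (m.degree_mem_support h0) ((hEmem _).mpr ⟨q, hq, h0, rfl⟩)
  · intro hJC hE0
    obtain ⟨p, hp, hp0, hpd⟩ := (hEmem _).mp hE0
    have h1 := m.degree_eq_zero_iff.mp hpd
    rw [h1] at hp
    exact hp0 (by rw [h1, hJC _ hp, C_0])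

end Pool.Agent.GEN.H88
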