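import Pool.Agent.Helper88_GEN.Base

/-!
# Squad GEN, row COR: the functional with one inactive variable

Adaptation of `Helper30_Simp2/CoreC.lean`.
-/

set_option autoImplicit false
set_option linter.unusedVariables false
set_option linter.unusedSectionVars false

namespace Pool.Agent.GEN.H88

open MvPolynomial Pool.Agent.Helper6_Mono Pool.Agent.Helper30_Simp Pool.Agent.Helper30_Simp2

namespace BZ

open scoped Classical

variable {σ : Type} [Fintype σ] {f : MvPolynomial σ ℂ} {z : σ} {κ : σ → ℕ} (B : BZ f.support z κ)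

/-- the coefficient ring -/
abbrev E : Type := NR B.lW B.aW B.bW B.gW

/-- the variables of the coefficient ring -/
noncomputable def Xr (ρ : B.Wl) : B.E := Xw B.lW B.aW B.bW B.gW ρ

/-- linear forms -/
noncomputable def lin (v : B.Wl → ℚ) : B.E := li B.lW B.aW B.bW B.gW v

/-- the linear form of a vector -/
noncomputable def lv (v : σ → ℚ) : B.E := B.lin (B.wq v)

theorem lin_nil (v : B.Wl → ℚ) : IsNilpotent (B.lin v) := li_nilpotent _ _ _ _ _

theorem Xr_nil (ρ : B.Wl) : IsNilpotent (B.Xr ρ) := Xw_nilpotent _ _ _ _ _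

theorem un_wq (j : σ) : (fun ρ => (B.un j ρ : ℚ)) = B.wq (fun l => if l = j then 1 else 0) := by
  funext ρ
  rcases ρ with i | β
  · show (((if (i : σ) = j then 1 else 0 : ℕ)) : ℚ) = if (i : σ) = j then 1 else 0
    split_ifs <;> simp
  · show (((β : σ →₀ ℕ) j : ℕ) : ℚ) = ∑ l, (if l = j then 1 else 0) * ((β : σ →₀ ℕ) l : ℚ)
    simp

theorem wq_add (v v' : σ → ℚ) : B.wq (fun j => v j + v' j) = fun ρ => B.wq v ρ + B.wq v' ρ := by
  funext ρ
  rcases ρ with i | β
  · rfl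
  · show ∑ j, (v j + v' j) * _ = ∑ j, v j * _ + ∑ j, v' j * _
    rw [← Finset.sum_add_distrib]
    exact Finset.sum_congr rfl fun j _ => by ring

theorem wq_mul (c : ℚ) (v : σ → ℚ) : B.wq (fun j => c * v j) = fun ρ => c * B.wq v ρ := by
  funext ρ
  rcases ρ with i | β
  · rfl
  · show ∑ j, (c * v j) * _ = c * ∑ j, v j * _
    rw [Finset.mul_sum]
    exact Finset.sum_congr rfl fun j _ => by ring

theorem lv_add (v v' : σ → ℚ) : B.lv (fun j => v j + v' j) = B.lv v + B.lv v' := by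
  unfold lv lin
  rw [wq_add, li_add]

theorem lv_mul (c : ℚ) (v : σ → ℚ) :
    B.lv (fun j => c * v j) = algebraMap ℂ B.E ((c : ℚ) : ℂ) * B.lv v := by
  unfold lv lin
  rw [wq_mul, li_mul]

theorem lv_zero : B.lv (fun _ => 0) = 0 := by
  have h := B.lv_mul 0 (fun _ => 0)
  simpa using h

theorem lv_sum {ι : Type} (s : Finset ι) (v : ι → σ → ℚ) :
    B.lv (fun j => ∑ i ∈ s, v i j) = ∑ i ∈ s, B.lv (v i) := by
  classical
  induction s using Finset.induction_on with
  | empty => simpa using B.lv_zero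
  | insert a' s ha ih =>
    rw [Finset.sum_insert ha, ← ih, ← lv_add]
    congr 1
    funext ρ
    rw [Finset.sum_insert ha]

/-- the two directions of an apex have the same linear form -/
theorem lv_dv {A : σ →₀ ℕ} (hA : A ∈ B.Aq) : B.lv (dv (B.D.j1 A) (B.D.j2 A)) = 0 := by
  have h1 := li_sub_ab B.lW B.aW B.bW B.gW ⟨A, hA⟩
  have h2 : (fun ρ => (B.aW ⟨A, hA⟩ ρ : ℚ) - (B.bW ⟨A, hA⟩ ρ : ℚ))
      = B.wq (dv (B.D.j1 A) (B.D.j2 A)) := by
    funext ρ
    have e1 := congrFun (B.un_wq (B.D.j1 A)) ρ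
    have e2 := congrFun (B.un_wq (B.D.j2 A)) ρ
    show (B.un (B.D.j1 A) ρ : ℚ) - (B.un (B.D.j2 A) ρ : ℚ) = _
    have e1' : (B.un (B.D.j1 A) ρ : ℚ) = B.wq (fun l => if l = B.D.j1 A then 1 else 0) ρ := e1
    have e2' : (B.un (B.D.j2 A) ρ : ℚ) = B.wq (fun l => if l = B.D.j2 A then 1 else 0) ρ := e2
    rw [e1', e2']
    have h3 : dv (B.D.j1 A) (B.D.j2 A) = fun l => (if l = B.D.j1 A then 1 else 0)
        + (-1) * (if l = B.D.j2 A then 1 else 0) := by
      funext l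
      unfold dv
      ring
    rw [h3, wq_add, wq_mul B (-1) (fun l => if l = B.D.j2 A then 1 else 0)]
    ring
  unfold lv lin
  rw [← h2]
  exact h1

/-- vectors orthogonal to the face have linear form zero -/
theorem lv_orth (v : σ → ℚ) (hv : ∀ i, (κ i = 0 ∨ i = z) → v i = 0)
    (hv' : ∀ α ∈ face f.support κ, ∑ i, v i * (α i : ℚ) = 0) : B.lv v = 0 := by
  obtain ⟨y, hy⟩ := B.D.span v (fun i hi => hv i (hi.imp id fun h => not_not.1 h)) hv'
  have h1 : v = fun i => ∑ A ∈ B.D.Ap, y A * dv (B.D.j1 A) (B.D.j2 A) i := funext hy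
  rw [h1, lv_sum B B.D.Ap (fun A i => y A * dv (B.D.j1 A) (B.D.j2 A) i)]
  refine Finset.sum_eq_zero fun A hA => ?_
  rw [lv_mul B (y A) (dv (B.D.j1 A) (B.D.j2 A)), B.lv_dv hA, mul_zero]

/-- the infinitesimal parts of the multiplicities -/
noncomputable def mu (α : σ →₀ ℕ) : B.E :=
  if h : α ∈ B.Hf then B.Xr (Sum.inr ⟨α, h⟩) else - B.lv (B.lam α)

/-- the multiplicities -/
noncomputable def th (α : σ →₀ ℕ) : B.E := algebraMap ℂ B.E (B.m α) + B.mu α

/-- the base points of the Gamma sequences -/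
noncomputable def b0 (α : σ →₀ ℕ) : ℤ := if h : α ∈ B.Pf then B.nn ⟨α, h⟩ else 0

theorem mu_nil (α : σ →₀ ℕ) : IsNilpotent (B.mu α) := by
  unfold mu
  split_ifs with h
  · exact B.Xr_nil _
  · exact (B.lin_nil _).neg

theorem th_unit (α : σ →₀ ℕ) (hα : α ∈ f.support) (r : ℤ) (hr : B.m α ≠ r) :
    IsUnit (B.th α - (r : B.E)) := by
  have h1 : B.th α - (r : B.E) = algebraMap ℂ B.E (B.m α - r) + B.mu α := by
    unfold th
    rw [map_sub, map_intCast]
    ring
  rw [h1]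
  exact isUnit_alg_add (sub_ne_zero.2 hr) (B.mu_nil α)

theorem m_ne (α : σ →₀ ℕ) (hα : α ∈ f.support) (r : ℤ) (hr : r < B.b0 α) : B.m α ≠ r := by
  intro h
  unfold b0 at hr
  split_ifs at hr with h1
  · rw [B.nn_eq ⟨α, h1⟩] at h
    have : B.nn ⟨α, h1⟩ = r := by exact_mod_cast h
    omega
  · by_cases h2 : α ∈ face f.support κ
    · exact h1 (B.mem_Pf.2 ⟨h2, r, hr, h⟩)
    · rw [B.m_zero α h2] at h
      have : (0 : ℤ) = r := by exact_mod_cast h
      omega

theorem exists_ph (α : σ →₀ ℕ) : ∃ φ : ℤ → B.E, α ∈ f.support → φ (B.b0 α) = 1 ∧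
    (∀ t : ℤ, φ (t + 1) = (B.th α - (t : B.E)) * φ t) ∧ ∀ t, t ≤ B.b0 α → IsUnit (φ t) := by
  by_cases hα : α ∈ f.support
  · obtain ⟨φ, h⟩ := exists_gam (B.th α) (B.b0 α) fun r hr => B.th_unit α hα r (B.m_ne α hα r hr)
    exact ⟨φ, fun _ => h⟩
  · exact ⟨0, fun h => absurd h hα⟩

/-- the Gamma sequences -/
noncomputable def ph (α : σ →₀ ℕ) : ℤ → B.E := (B.exists_ph α).choose

theorem ph_base {α : σ →₀ ℕ} (hα : α ∈ f.support) : B.ph α (B.b0 α) = 1 :=
  ((B.exists_ph α).choose_spec hα).1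

theorem ph_succ (α : σ →₀ ℕ) (hα : α ∈ f.support) (t : ℤ) :
    B.ph α (t + 1) = (B.th α - (t : B.E)) * B.ph α t :=
  ((B.exists_ph α).choose_spec hα).2.1 t

theorem Pf_sub {α : σ →₀ ℕ} (h : α ∈ B.Pf) : α ∈ f.support := (B.mem_Pf.1 h).1.1

theorem Pf_not_Hf {α : σ →₀ ℕ} (h : α ∈ B.Pf) : α ∉ B.Hf := fun h' =>
  (B.mem_Hf.1 h').2 (B.mem_Pf.1 h).1

theorem th_Pf (i : B.Pf) : B.th i - ((B.nn i : ℤ) : B.E) = - B.lv (B.lam i) := by
  unfold th mu
  rw [dif_neg (B.Pf_not_Hf i.2), B.nn_eq i, map_intCast, add_sub_cancel_left]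

theorem th_Hf (β : B.Hf) : B.th β = B.Xr (Sum.inr β) := by
  unfold th mu
  rw [dif_pos β.2, B.m_zero _ (B.mem_Hf.1 β.2).2, map_zero, zero_add]

/-- the linear form of an apex -/
theorem lv_apex (i : B.Aq) : B.lv (B.lam i) = B.lin (fun ρ => (B.aW i ρ : ℚ)) := by
  unfold lv
  congr 1
  funext ρ
  rcases ρ with j | β
  · have h1 := B.apex i i.2 (fun l => if l = (j : σ) then 1 else 0)
    simp only [mul_ite, mul_one, mul_zero, Finset.sum_ite_eq', Finset.mem_univ, if_true] at h1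
    show B.lam i j = ((if (j : σ) = B.D.j1 i then 1 else 0 : ℕ) : ℚ)
    rw [h1]
    by_cases h2 : B.D.j1 i = (j : σ)
    · rw [if_pos h2, if_pos h2.symm, Nat.cast_one]
    · rw [if_neg h2, if_neg (fun h => h2 h.symm), Nat.cast_zero]
  · exact B.apex i i.2 (fun l => ((β : σ →₀ ℕ) l : ℚ))

/-- the resonant monomials with small index -/
noncomputable def Dt (t : f.support → ℤ) : Finset B.Pf :=
  Finset.univ.filter fun i => t ⟨i, B.Pf_sub i.2⟩ ≤ B.nn i

/-- the resonant monomials with small index which are not apexes -/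
noncomputable def Dt1 (t : f.support → ℤ) : Finset B.Pq :=
  Finset.univ.filter fun i => (⟨i, (B.mem_Pq.1 i.2).1⟩ : B.Pf) ∈ B.Dt t

/-- the apexes with small index -/
noncomputable def Dt2 (t : f.support → ℤ) : Finset B.Aq :=
  Finset.univ.filter fun i => (⟨i, B.Aq_Pf i.2⟩ : B.Pf) ∈ B.Dt t

/-- the monomials outside the face with positive index -/
noncomputable def Ht (t : f.support → ℤ) : Finset B.Hf :=
  Finset.univ.filter fun β => 0 < t ⟨β, (B.mem_Hf.1 β.2).1⟩

/-- products over the resonant monomials -/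
theorem prod_split (F : (σ →₀ ℕ) → B.E) (s : Finset B.Pf) :
    ∏ i ∈ s, F i = (∏ i ∈ Finset.univ.filter
        (fun i : B.Pq => (⟨i, (B.mem_Pq.1 i.2).1⟩ : B.Pf) ∈ s), F i) *
      ∏ i ∈ Finset.univ.filter (fun i : B.Aq => (⟨i, B.Aq_Pf i.2⟩ : B.Pf) ∈ s), F i := by
  rw [← Finset.prod_filter_mul_prod_filter_not s (fun i => (i : σ →₀ ℕ) ∉ B.Aq)]
  congr 1
  · symm
    refine Finset.prod_bij (fun i _ => (⟨i, (B.mem_Pq.1 i.2).1⟩ : B.Pf)) ?_ ?_ ?_ ?_
    · intro i hi
      exact Finset.mem_filter.2 ⟨(Finset.mem_filter.1 hi).2, (B.mem_Pq.1 i.2).2⟩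
    · intro i _ j _ h
      exact Subtype.ext (congrArg (fun x : B.Pf => (x : σ →₀ ℕ)) h)
    · intro i hi
      have h1 := Finset.mem_filter.1 hi
      exact ⟨⟨i, B.mem_Pq.2 ⟨i.2, h1.2⟩⟩, Finset.mem_filter.2 ⟨Finset.mem_univ _, h1.1⟩, rfl⟩
    · intro i _
      rfl
  · symm
    refine Finset.prod_bij (fun i _ => (⟨i, B.Aq_Pf i.2⟩ : B.Pf)) ?_ ?_ ?_ ?_
    · intro i hi
      exact Finset.mem_filter.2 ⟨(Finset.mem_filter.1 hi).2, not_not.2 i.2⟩
    · intro i _ j _ h
      exact Subtype.ext (congrArg (fun x : B.Pf => (x : σ →₀ ℕ)) h)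
    · intro i hi
      have h1 := Finset.mem_filter.1 hi
      exact ⟨⟨i, not_not.1 h1.2⟩, Finset.mem_filter.2 ⟨Finset.mem_univ _, h1.1⟩, rfl⟩
    · intro i _
      rfl

theorem dvd_cf (t : f.support → ℤ) :
    (∏ β ∈ B.Ht t, B.Xr (Sum.inr β)) *
      ∏ i ∈ Finset.univ.filter (fun i => i ∉ B.Dt t), B.lv (B.lam i)
      ∣ cf f B.ph t := by
  let s : Finset (B.Hf ⊕ B.Pf) :=
    (B.Ht t).disjSum (Finset.univ.filter fun i => i ∉ B.Dt t)
  let e : B.Hf ⊕ B.Pf → f.support := fun z => match z with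
    | Sum.inl β => ⟨β, (B.mem_Hf.1 β.2).1⟩
    | Sum.inr i => ⟨i, B.Pf_sub i.2⟩
  let x : B.Hf ⊕ B.Pf → B.E := fun z => match z with
    | Sum.inl β => B.Xr (Sum.inr β)
    | Sum.inr i => B.lv (B.lam i)
  have he : Function.Injective e := by
    rintro (β | i) (β' | i') h
    · have := congrArg Subtype.val h
      exact congrArg Sum.inl (Subtype.ext this)
    · have := congrArg Subtype.val h
      exact absurd β.2 (by
        have h2 : (β : σ →₀ ℕ) = i' := this
        rw [h2]; exact B.Pf_not_Hf i'.2)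
    · have := congrArg Subtype.val h
      exact absurd β'.2 (by
        have h2 : (i : σ →₀ ℕ) = β' := this
        rw [← h2]; exact B.Pf_not_Hf i.2)
    · have := congrArg Subtype.val h
      exact congrArg Sum.inr (Subtype.ext this)
  have h1 : ∏ z ∈ s, x z = (∏ β ∈ B.Ht t, B.Xr (Sum.inr β)) *
      ∏ i ∈ Finset.univ.filter (fun i => i ∉ B.Dt t), B.lv (B.lam i) :=
    Finset.prod_disjSum _ _ _
  rw [← h1]
  have h2 : ∀ z ∈ s, x z ∣ B.ph (e z) (t (e z)) *
      algebraMap ℂ B.E ((coeff (e z : σ →₀ ℕ) f) ^ (- t (e z))) := by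
    intro z hz
    refine dvd_mul_of_dvd_left ?_ _
    rcases z with β | i
    · have h3 := Finset.inl_mem_disjSum.1 hz
      have h4 : 0 < t (e (Sum.inl β)) := (Finset.mem_filter.1 h3).2
      have h5 := gam_dvd (B.ph_succ (e (Sum.inl β)) (e (Sum.inl β)).2) h4
      rw [Int.cast_zero, sub_zero] at h5
      have h6 : B.th (e (Sum.inl β)) = B.Xr (Sum.inr β) := B.th_Hf β
      rw [h6] at h5
      exact h5
    · have h3 := (Finset.mem_filter.1 (Finset.inr_mem_disjSum.1 hz)).2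
      have h4 : B.nn i < t (e (Sum.inr i)) := by
        by_contra h5
        exact h3 (Finset.mem_filter.2 ⟨Finset.mem_univ _, not_lt.1 h5⟩)
      have h5 := gam_dvd (B.ph_succ (e (Sum.inr i)) (e (Sum.inr i)).2) h4
      have h6 : B.th (e (Sum.inr i)) - ((B.nn i : ℤ) : B.E) = - B.lv (B.lam i) :=
        B.th_Pf i
      rw [h6] at h5
      obtain ⟨r, hr⟩ := h5
      refine ⟨-r, ?_⟩
      rw [hr]
      show - B.lv (B.lam i) * r = B.lv (B.lam i) * -r
      ring
  refine (Finset.prod_dvd_prod_of_dvd _ _ h2).trans ?_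
  rw [← Finset.prod_image (s := s) (g := e) (f := fun α : f.support => B.ph α (t α) *
      algebraMap ℂ B.E ((coeff (α : σ →₀ ℕ) f) ^ (- t α))) (fun a _ b _ h => he h)]
  exact Finset.prod_dvd_prod_of_subset _ _ _ (Finset.subset_univ _)

/-- nonvanishing terms belong to faces -/
theorem face_of_ne {t : f.support → ℤ} {A : Finset B.Jf}
    (h : (∏ j ∈ A, B.Xr (Sum.inl j)) * cf f B.ph t ≠ 0) :
    IsFace2 B.lW B.aW B.bW B.gW (B.Dt1 t) (B.Dt2 t) (A.disjSum (B.Ht t)) := by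
  by_contra hn
  apply h
  have h1 : (∏ ρ ∈ A.disjSum (B.Ht t), B.Xr ρ) *
      (∏ i ∈ Finset.univ.filter (fun i => i ∉ B.Dt1 t), B.lin (B.lW i)) *
      ∏ i ∈ Finset.univ.filter (fun i => i ∉ B.Dt2 t), B.lin (fun ρ => (B.aW i ρ : ℚ)) = 0 :=
    nonface2_zero B.lW B.aW B.bW B.gW hn (fun i => by
      rw [Finset.mem_filter]
      exact ⟨fun h => h.2, fun h => ⟨Finset.mem_univ _, h⟩⟩) (fun i => by
      rw [Finset.mem_filter]
      exact ⟨fun h => h.2, fun h => ⟨Finset.mem_univ _, h⟩⟩)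
  rw [Finset.prod_disjSum] at h1
  have h2 := B.prod_split (fun α => B.lv (B.lam α)) (Finset.univ.filter (fun i => i ∉ B.Dt t))
  have h3 : ∏ i ∈ Finset.univ.filter (fun i : B.Pq =>
        (⟨i, (B.mem_Pq.1 i.2).1⟩ : B.Pf) ∈ Finset.univ.filter (fun i => i ∉ B.Dt t)),
        B.lv (B.lam i)
      = ∏ i ∈ Finset.univ.filter (fun i => i ∉ B.Dt1 t), B.lin (B.lW i) := by
    refine Finset.prod_congr ?_ fun i _ => rfl
    ext i
    unfold Dt1
    simp
  have h4 : ∏ i ∈ Finset.univ.filter (fun i : B.Aq =>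
        (⟨i, B.Aq_Pf i.2⟩ : B.Pf) ∈ Finset.univ.filter (fun i => i ∉ B.Dt t)),
        B.lv (B.lam i)
      = ∏ i ∈ Finset.univ.filter (fun i => i ∉ B.Dt2 t), B.lin (fun ρ => (B.aW i ρ : ℚ)) := by
    refine Finset.prod_congr ?_ fun i _ => B.lv_apex i
    ext i
    unfold Dt2
    simp
  obtain ⟨r, hr⟩ := B.dvd_cf t
  rw [hr, h2, h3, h4]
  have h5 : ∀ a b c d : B.E, a * b * c * d = 0 → a * (b * (c * d) * r) = 0 := by
    intro a b c d hh
    have : a * (b * (c * d) * r) = (a * b * c * d) * r := by ring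
    rw [this, hh, zero_mul]
  exact h5 _ _ _ _ h1

theorem exists_u {t : f.support → ℤ} {A : Finset B.Jf}
    (h : (∏ j ∈ A, B.Xr (Sum.inl j)) * cf f B.ph t ≠ 0) : ∃ u, B.Fc (B.Dt t) A (B.Ht t) u :=
  B.exists_Fc (fun i hi h' => (Finset.mem_filter.1 h').2) (fun i hi h' => (Finset.mem_filter.1 h').2)
    (B.face_of_ne h)

/-- signs -/
theorem sign {t : f.support → ℤ} {A : Finset B.Jf} {u : σ → ℝ}
    (h : B.Fc (B.Dt t) A (B.Ht t) u) (α : f.support) :
    (t α : ℝ) * (dot u (α : σ →₀ ℕ) - B.N) ≤ 0 := by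
  obtain ⟨h1, h2, h3, h3', h4, h4', h5, h6, -⟩ := h
  by_cases hf : (α : σ →₀ ℕ) ∈ face f.support κ
  · by_cases hp : (α : σ →₀ ℕ) ∈ B.Pf
    · by_cases h8 : (⟨α, hp⟩ : B.Pf) ∈ B.Dt t
      · have h9 : t α ≤ B.nn ⟨α, hp⟩ := (Finset.mem_filter.1 h8).2
        have h10 := B.nn_neg ⟨α, hp⟩
        have h11 : (t α : ℝ) ≤ 0 := by
          have : t α ≤ 0 := by omega
          exact_mod_cast this
        exact mul_nonpos_of_nonpos_of_nonneg h11 (h1 ⟨α, hp⟩)
      · have h9 : dot u (α : σ →₀ ℕ) - (B.N : ℝ) = 0 := h2 ⟨α, hp⟩ h8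
        rw [h9, mul_zero]
    · rw [h4' α hf hp, mul_zero]
  · have hH : (α : σ →₀ ℕ) ∈ B.Hf := B.mem_Hf.2 ⟨α.2, hf⟩
    by_cases h8 : (⟨α, hH⟩ : B.Hf) ∈ B.Ht t
    · have h7 : dot u (α : σ →₀ ℕ) - (B.N : ℝ) = 0 := h6 ⟨α, hH⟩ h8
      rw [h7, mul_zero]
    · have h9 : t α ≤ 0 := by
        by_contra h10
        exact h8 (Finset.mem_filter.2 ⟨Finset.mem_univ _, not_le.1 h10⟩)
      have h11 : (t α : ℝ) ≤ 0 := by exact_mod_cast h9
      exact mul_nonpos_of_nonpos_of_nonneg h11 (h4 α α.2)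

theorem finite_of {u : σ → ℝ} (hu : ∀ j, 0 ≤ u j) (huz : u z = κ z)
    (he : ∀ α ∈ f.support, 0 ≤ dot u α - (B.N : ℝ))
    (l : ℤ) (w : σ → ℤ) :
    {t | t ∈ idx f l w ∧ ∀ α : f.support, (t α : ℝ) * (dot u (α : σ →₀ ℕ) - B.N) ≤ 0}.Finite := by
  set ee : (σ →₀ ℕ) → ℝ := fun α => dot u α - B.N with hee
  set K : ℝ := B.N * l - ∑ j, u j * (w j : ℝ) with hK
  have hN : (0 : ℝ) < B.N := by exact_mod_cast B.D.hN
  let tr : (f.support → ℤ) → (f.support → ℤ) := fun t α => if 0 < ee α then t α else 0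
  have h1 : (tr '' {t | t ∈ idx f l w ∧ ∀ α : f.support, (t α : ℝ) * ee α ≤ 0}).Finite := by
    refine (Set.Finite.pi (t := fun α : f.support =>
      Set.Icc (-⌈|K| / ee α⌉) 0) fun α => Set.finite_Icc _ _).subset ?_
    rintro _ ⟨t, ⟨ht, hs⟩, rfl⟩ α _
    have hb : (0 : ℤ) ≤ ⌈|K| / ee α⌉ := by
      apply Int.ceil_nonneg
      exact div_nonneg (abs_nonneg _) (he α α.2)
    show (if 0 < ee α then t α else 0) ∈ Set.Icc (-⌈|K| / ee α⌉) 0
    split_ifs with h2
    · have h3 := keyR u (B.N : ℝ) ht.1 ht.2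
      have h4 : ∑ α : f.support, -((t α : ℝ) * ee α) = K := by
        rw [Finset.sum_neg_distrib, hK, h3]
        ring
      have h5 : -((t α : ℝ) * ee α) ≤ K := by
        rw [← h4]
        exact Finset.single_le_sum (f := fun α : f.support => -((t α : ℝ) * ee α))
          (fun β _ => by have := hs β; linarith) (Finset.mem_univ α)
      constructor
      · have h6 : -(t α : ℝ) ≤ |K| / ee α := by
          rw [le_div_iff₀ h2]
          have := le_abs_self K
          linarith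
        have h7 : -(t α : ℝ) ≤ (⌈|K| / ee α⌉ : ℝ) := h6.trans (Int.le_ceil _)
        have h8 : -(t α) ≤ ⌈|K| / ee α⌉ := by exact_mod_cast h7
        omega
      · have h6 := hs α
        have h7 : (t α : ℝ) ≤ 0 := by
          by_contra h8
          have := mul_pos (not_le.1 h8) h2
          linarith
        exact_mod_cast h7
    · exact ⟨by omega, le_rfl⟩
  refine Set.Finite.of_finite_image h1 ?_
  rintro t ⟨ht, -⟩ t' ⟨ht', -⟩ htt'
  have h2 : t - t' = 0 := by
    refine indepA B.simp hu huz he (t := t - t') (fun j => ?_) fun α hα => ?_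
    · simp only [Pi.sub_apply, sub_mul, Finset.sum_sub_distrib]
      rw [ht.2 j, ht'.2 j, sub_self]
    · have := congrFun htt' α
      have h3 : (if 0 < ee α then t α else 0) = if 0 < ee α then t' α else 0 := this
      rw [if_pos hα, if_pos hα] at h3
      rw [Pi.sub_apply, h3, sub_self]
  exact sub_eq_zero.1 h2

theorem finite_idx (l : ℤ) (w : σ → ℤ) : {t | t ∈ idx f l w ∧ cf f B.ph t ≠ 0}.Finite := by
  have h1 : ∀ DH : Finset B.Pf × Finset B.Hf,
      {t | t ∈ idx f l w ∧ cf f B.ph t ≠ 0 ∧ B.Dt t = DH.1 ∧ B.Ht t = DH.2}.Finite := by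
    rintro ⟨D, H⟩
    by_cases hF : ∃ u, B.Fc D (∅ : Finset B.Jf) H u
    · obtain ⟨u, hu⟩ := hF
      refine (B.finite_of hu.2.2.1 hu.2.2.2.2.2.2.2.2 hu.2.2.2.2.1 l w).subset ?_
      rintro t ⟨ht, -, rfl, rfl⟩
      exact ⟨ht, B.sign hu⟩
    · refine Set.Finite.subset Set.finite_empty ?_
      rintro t ⟨ht, h2, rfl, rfl⟩
      exact hF (B.exists_u (A := ∅) (by rwa [Finset.prod_empty, one_mul]))
  refine (Set.finite_iUnion h1).subset fun t ht => ?_
  exact Set.mem_iUnion.2 ⟨(B.Dt t, B.Ht t), ht.1, ht.2, rfl, rfl⟩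

/-! ### the submodule -/

/-- the variables with negative exponent -/
noncomputable def Aw (w : σ → ℤ) : Finset B.Jf := Finset.univ.filter fun j => w j < 0

/-- the submodule -/
noncomputable def N0 : Submodule B.E ((σ → ℤ) → B.E) where
  carrier := {F | ∀ w, -(B.N : ℤ) < κ z * w z → (∏ j ∈ B.Aw w, B.Xr (Sum.inl j)) * F w = 0}
  zero_mem' w _ := by rw [Pi.zero_apply, mul_zero]
  add_mem' := by
    intro F G hF hG w hw
    rw [Pi.add_apply, mul_add, hF w hw, hG w hw, add_zero]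
  smul_mem' := by
    intro c F hF w hw
    rw [Pi.smul_apply, smul_eq_mul, mul_left_comm, hF w hw, mul_zero]

theorem N0_act (j : σ) (F : (σ → ℤ) → B.E) (hF : F ∈ B.N0) : actF σ B.E (X j) F ∈ B.N0 := by
  intro w hw
  rw [actF_X]
  have h1 : B.Aw (fun i => w i + ((Finsupp.single j 1 : σ →₀ ℕ) i : ℤ)) ⊆ B.Aw w := by
    intro i hi
    have h2 := (Finset.mem_filter.1 hi).2
    refine Finset.mem_filter.2 ⟨Finset.mem_univ _, ?_⟩
    have : (0 : ℤ) ≤ ((Finsupp.single j 1 : σ →₀ ℕ) (i : σ) : ℤ) := Int.natCast_nonneg _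
    simp only at h2
    omega
  obtain ⟨r, hr⟩ := Finset.prod_dvd_prod_of_subset _ _ (fun j => B.Xr (Sum.inl j)) h1
  rw [hr, mul_right_comm]
  have h2 := hF (fun i => w i + ((Finsupp.single j 1 : σ →₀ ℕ) i : ℤ)) (by
    have h3 : (0 : ℤ) ≤ ((Finsupp.single j 1 : σ →₀ ℕ) z : ℤ) := Int.natCast_nonneg _
    have h4 : (0 : ℤ) ≤ (κ z : ℤ) := Int.natCast_nonneg _
    have h5 := mul_nonneg h4 h3
    rw [mul_add]
    linarith)
  rw [h2, zero_mul]

/-- the exponents of the variables -/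
noncomputable def nv (j : σ) : B.E := ∑ α ∈ f.support, B.th α * ((α j : ℕ) : B.E)

/-- the projection property -/
theorem sum_lv (j : B.Jf) :
    ∑ α ∈ f.support, B.lv (B.lam α) * ((α j : ℕ) : B.E)
      = B.Xr (Sum.inl j) + ∑ β : B.Hf, B.Xr (Sum.inr β) * ((((β : σ →₀ ℕ) j : ℕ)) : B.E) := by
  obtain ⟨hj, hjz⟩ := B.mem_Jf.1 j.2
  -- the section of the unit functional
  set s : σ → ℚ := fun i => ∑ α ∈ f.support, (α j : ℚ) * B.lam α i with hs
  -- `e_j - s` is orthogonal to the face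
  have h1 : B.lv (fun i => (if i = (j : σ) then 1 else 0) + (-1) * s i) = 0 := by
    refine B.lv_orth _ (fun i hi => ?_) fun β hβ => ?_
    · have h2 : i ≠ (j : σ) := fun h => hi.elim (fun hi => hj (h ▸ hi)) fun hi => hjz (h ▸ hi)
      show (if i = (j : σ) then (1 : ℚ) else 0) + (-1) * s i = 0
      rw [if_neg h2, hs]
      show 0 + (-1 : ℚ) * ∑ α ∈ f.support, (α j : ℚ) * B.lam α i = 0
      rw [Finset.sum_eq_zero fun α _ => by rw [B.lamJ α i hi, mul_zero]]
      ring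
    · have h3 := B.sec β hβ j hj hjz
      have h4 : ∑ i, s i * (β i : ℚ) = (β j : ℚ) := by
        rw [← h3, hs]
        simp_rw [Finset.sum_mul]
        rw [Finset.sum_comm]
        refine Finset.sum_congr rfl fun α _ => Finset.sum_congr rfl fun i _ => ?_
        ring
      have h5 : ∀ i, ((if i = (j : σ) then (1 : ℚ) else 0) + (-1) * s i) * (β i : ℚ)
          = (if i = (j : σ) then (β i : ℚ) else 0) - s i * (β i : ℚ) := by
        intro i
        split_ifs <;> ring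
      rw [Finset.sum_congr rfl fun i _ => h5 i, Finset.sum_sub_distrib, Finset.sum_ite_eq',
        if_pos (Finset.mem_univ _), h4, sub_self]
  rw [lv_add B (fun i => if i = (j : σ) then 1 else 0) (fun i => (-1) * s i),
    lv_mul B (-1) s] at h1
  have h2 : B.lv s = ∑ α ∈ f.support, B.lv (B.lam α) * ((α j : ℕ) : B.E) := by
    rw [hs, lv_sum B f.support (fun α i => (α j : ℚ) * B.lam α i)]
    refine Finset.sum_congr rfl fun α _ => ?_
    rw [lv_mul B ((α j : ℕ) : ℚ) (B.lam α), Rat.cast_natCast, map_natCast, mul_comm]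
  have h3 : B.lv (fun i => if i = (j : σ) then 1 else 0)
      = B.Xr (Sum.inl j) + ∑ β : B.Hf, B.Xr (Sum.inr β) * ((((β : σ →₀ ℕ) j : ℕ)) : B.E) := by
    unfold lv lin
    rw [← un_wq]
    unfold li
    rw [Fintype.sum_sum_type]
    congr 1
    · rw [Finset.sum_eq_single j]
      · have : B.un (j : σ) (Sum.inl j) = 1 := if_pos rfl
        beta_reduce
        rw [this]
        simp only [Nat.cast_one, Rat.cast_one, map_one, one_mul]
        rfl
      · intro i _ hi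
        have : B.un (j : σ) (Sum.inl i) = 0 := if_neg fun h => hi (Subtype.ext h)
        beta_reduce
        rw [this]
        simp
      · intro h; exact absurd (Finset.mem_univ _) h
    · refine Finset.sum_congr rfl fun β _ => ?_
      have : B.un (j : σ) (Sum.inr β) = (β : σ →₀ ℕ) j := rfl
      beta_reduce
      rw [this, Rat.cast_natCast, map_natCast, mul_comm]
      rfl
  rw [← h2, ← h3]
  rw [Rat.cast_neg, Rat.cast_one, map_neg, map_one] at h1
  linear_combination -h1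

theorem nv_eq (j : B.Jf) : B.nv j = -1 - B.Xr (Sum.inl j) := by
  unfold nv th
  simp_rw [add_mul, Finset.sum_add_distrib]
  have h1 : ∑ α ∈ f.support, algebraMap ℂ B.E (B.m α) * ((α j : ℕ) : B.E) = -1 := by
    have h2 : ∀ α ∈ f.support, algebraMap ℂ B.E (B.m α) * ((α j : ℕ) : B.E)
        = algebraMap ℂ B.E (B.m α * (α j : ℂ)) := fun α _ => by rw [map_mul, map_natCast]
    rw [Finset.sum_congr rfl h2, ← map_sum, B.sum_m j (B.mem_Jf.1 j.2).1 (B.mem_Jf.1 j.2).2,
      map_neg, map_one]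
  have h3 : ∀ α ∈ f.support, B.mu α * ((α j : ℕ) : B.E)
      = (if h : α ∈ B.Hf then B.Xr (Sum.inr ⟨α, h⟩) * ((α j : ℕ) : B.E) else 0)
        - B.lv (B.lam α) * ((α j : ℕ) : B.E) := by
    intro α hα
    unfold mu
    split_ifs with h
    · have h4 : B.lam α = fun _ => 0 := funext fun i => B.lam_zero α (B.mem_Hf.1 h).2 i
      rw [h4, lv_zero, zero_mul, sub_zero]
    · rw [zero_sub, neg_mul]
  rw [h1, Finset.sum_congr rfl h3, Finset.sum_sub_distrib, B.sum_lv j]
  have h4 : ∑ α ∈ f.support, (if h : α ∈ B.Hf then B.Xr (Sum.inr ⟨α, h⟩) * ((α j : ℕ) : B.E)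
      else 0) = ∑ β : B.Hf, B.Xr (Sum.inr β) * ((((β : σ →₀ ℕ) j : ℕ)) : B.E) := by
    symm
    refine Finset.sum_bij_ne_zero (fun β _ _ => (β : σ →₀ ℕ)) (fun β _ _ => (B.mem_Hf.1 β.2).1)
      (fun β _ _ γ _ _ h => Subtype.ext h) ?_ ?_
    · intro α hα hne
      by_cases h : α ∈ B.Hf
      · rw [dif_pos h] at hne
        exact ⟨⟨α, h⟩, Finset.mem_univ _, hne, rfl⟩
      · rw [dif_neg h] at hne
        exact absurd rfl hne
    · intro β _ _
      rw [dif_pos β.2]
  rw [h4]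
  ring

theorem N0_d (j : σ) (hjz : j ≠ z) (F : (σ → ℤ) → B.E) (hF : F ∈ B.N0) :
    dF B.nv j F ∈ B.N0 := by
  intro w hw
  rw [dF_apply]
  set w' : σ → ℤ := fun i => w i - ((Finsupp.single j 1 : σ →₀ ℕ) i : ℤ) with hw'
  have hne : ∀ i : σ, i ≠ j → w' i = w i := by
    intro i hi
    show w i - ((Finsupp.single j 1 : σ →₀ ℕ) i : ℤ) = w i
    rw [Finsupp.single_eq_of_ne hi]
    simp
  have hF' := hF w' (by rw [hne z (Ne.symm hjz)]; exact hw)
  have hj' : w' j = w j - 1 := by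
    show w j - ((Finsupp.single j 1 : σ →₀ ℕ) j : ℤ) = w j - 1
    rw [Finsupp.single_eq_same]
    rfl
  by_cases hcase : j ∈ B.Jf ∧ w j = 0
  · obtain ⟨hj, hwj⟩ := hcase
    have h1 : B.nv j = -1 - B.Xr (Sum.inl ⟨j, hj⟩) := B.nv_eq ⟨j, hj⟩
    have h2 : (⟨j, hj⟩ : B.Jf) ∉ B.Aw w := by
      intro h
      have := (Finset.mem_filter.1 h).2
      simp only at this
      omega
    have h3 : B.Aw w' = insert (⟨j, hj⟩ : B.Jf) (B.Aw w) := by
      ext i
      unfold Aw
      rw [Finset.mem_insert, Finset.mem_filter, Finset.mem_filter]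
      by_cases hi : i = ⟨j, hj⟩
      · subst hi
        simp only [Finset.mem_univ, true_and, true_or, iff_true]
        rw [hj']
        omega
      · have : (i : σ) ≠ j := fun h => hi (Subtype.ext h)
        rw [hne i this]
        simp [hi]
    rw [h3, Finset.prod_insert h2] at hF'
    rw [h1, hwj]
    push_cast
    linear_combination -hF'
  · have h1 : B.Aw w' = B.Aw w := by
      ext i
      unfold Aw
      rw [Finset.mem_filter, Finset.mem_filter]
      by_cases hi : (i : σ) = j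
      · have h2 : w j ≠ 0 := fun h => hcase ⟨hi ▸ i.2, h⟩
        rw [hi, hj']
        constructor
        · rintro ⟨h3, h4⟩; exact ⟨h3, by omega⟩
        · rintro ⟨h3, h4⟩; exact ⟨h3, by omega⟩
      · rw [hne i hi]
    rw [← h1, mul_left_comm, hF', mul_zero]

/-! ### the chain -/

/-- the total exponent is `s₀` plus a nilpotent element -/
theorem sum_th : ∃ ν : B.E, IsNilpotent ν ∧
    ∑ α ∈ f.support, B.th α = algebraMap ℂ B.E (∑ α ∈ f.support, B.m α) + ν := by
  refine ⟨∑ α ∈ f.support, B.mu α, ?_, ?_⟩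
  · rw [← mem_nilradical]
    exact Ideal.sum_mem _ fun α _ => mem_nilradical.2 (B.mu_nil α)
  · unfold th
    rw [Finset.sum_add_distrib, map_sum]

theorem sum_m_eq : (B.N : ℂ) * ∑ α ∈ f.support, B.m α
    = -((∑ j ∈ Finset.univ.erase z, κ j : ℕ) : ℂ) := by
  have h1 := B.sumA B.m B.m_zero fun j hj hjz => B.sum_m j hj hjz
  rw [h1]
  push_cast
  congr 1
  refine (Finset.sum_congr rfl fun i _ =>
    (?_ : _ = if i = z then (0 : ℂ) else (κ i : ℂ))).trans ?_
  · by_cases h : i = z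
    · rw [if_pos h, if_neg (fun h' => h' h)]
    · rw [if_neg h, if_pos (show i ∈ ({i | i ≠ z} : Set σ) from h)]
  · rw [← Finset.add_sum_erase Finset.univ (fun i => if i = z then (0 : ℂ) else (κ i : ℂ))
      (Finset.mem_univ z), if_pos rfl, zero_add]
    refine Finset.sum_congr rfl fun i hi => ?_
    rw [if_neg (Finset.ne_of_mem_erase hi)]

theorem N_ne : (B.N : ℂ) ≠ 0 := by
  have := B.D.hN
  exact_mod_cast this.ne'

theorem s0_ne (hκ : ∃ j, j ≠ z ∧ κ j ≠ 0) (l : ℕ) : ∑ α ∈ f.support, B.m α ≠ (l : ℂ) := by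
  intro h
  have h1 := B.sum_m_eq
  rw [h] at h1
  have h2 : ((B.N * l + ∑ j ∈ Finset.univ.erase z, κ j : ℕ) : ℂ) = 0 := by
    push_cast at h1 ⊢
    rw [h1]
    ring
  have h3 : B.N * l + ∑ j ∈ Finset.univ.erase z, κ j = 0 := by exact_mod_cast h2
  obtain ⟨j, hjz, hj⟩ := hκ
  have h4 : κ j ≤ ∑ j ∈ Finset.univ.erase z, κ j :=
    Finset.single_le_sum (fun _ _ => Nat.zero_le _) (Finset.mem_erase.2 ⟨hjz, Finset.mem_univ j⟩)
  omega

theorem psi_neg_mem : psiF f B.ph (-1) ∈ B.N0 := by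
  intro w hwz
  unfold psiF
  rw [← ws_mul _ (B.finite_idx _ _)]
  have h1 : ws f (fun t => (∏ j ∈ B.Aw w, B.Xr (Sum.inl j)) * cf f B.ph t) (-1) w
      = ws f (fun _ => (0 : B.E)) (-1) w := by
    refine ws_congr fun t ht => ?_
    by_contra hne
    obtain ⟨u, hu⟩ := B.exists_u hne
    have h2 := keyR u (B.N : ℝ) ht.1 ht.2
    have h3 : ∑ α : f.support, (t α : ℝ) * (dot u (α : σ →₀ ℕ) - B.N) ≤ 0 :=
      Finset.sum_nonpos fun α _ => B.sign hu α
    have h4 : u z * (w z : ℝ) ≤ ∑ j, u j * (w j : ℝ) := by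
      rw [← Finset.add_sum_erase Finset.univ (fun j => u j * (w j : ℝ)) (Finset.mem_univ z)]
      refine le_add_of_nonneg_right (Finset.sum_nonneg fun j hjz => ?_)
      have hjz' := (Finset.mem_erase.1 hjz).1
      by_cases hj : κ j = 0
      · rw [hu.2.2.2.1 j hj, zero_mul]
      · by_cases hw : w j < 0
        · have h5 : u j = 0 := hu.2.2.2.2.2.2.1 ⟨j, B.mem_Jf.2 ⟨hj, hjz'⟩⟩
            (Finset.mem_filter.2 ⟨Finset.mem_univ _, hw⟩)
          rw [h5, zero_mul]
        · exact mul_nonneg (hu.2.2.1 j) (by exact_mod_cast not_lt.1 hw)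
    have h6 : (-(B.N : ℝ)) < u z * (w z : ℝ) := by
      rw [hu.2.2.2.2.2.2.2.2]
      exact_mod_cast hwz
    push_cast at h2
    linarith
  rw [h1, ws_zero]

theorem cf_zero_of {t : f.support → ℤ} (ht : t ∈ idx f 0 0) (hne : cf f B.ph t ≠ 0) : t = 0 := by
  obtain ⟨u, hu⟩ := B.exists_u (A := ∅) (t := t) (by rwa [Finset.prod_empty, one_mul])
  have h2 := keyR u (B.N : ℝ) ht.1 ht.2
  simp only [Pi.zero_apply, Int.cast_zero, mul_zero, Finset.sum_const_zero, zero_add] at h2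
  have h3 := (Finset.sum_eq_zero_iff_of_nonpos (fun α _ => B.sign hu α)).1 h2.symm
  refine indepA B.simp hu.2.2.1 hu.2.2.2.2.2.2.2.2 hu.2.2.2.2.1 (fun j => ht.2 j) fun α hα => ?_
  have h4 := h3 α (Finset.mem_univ _)
  rcases mul_eq_zero.1 h4 with h6 | h6
  · exact_mod_cast h6
  · exact absurd h6 hα.ne'

theorem cf_zero_eq : ∃ u : B.E, IsUnit u ∧ cf f B.ph 0 = u * ∏ i : B.Pf, B.lv (B.lam i) := by
  have h1 : cf f B.ph 0 = ∏ α : f.support, B.ph α 0 := by
    unfold cf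
    refine Finset.prod_congr rfl fun α _ => ?_
    simp
  have h2 : ∀ α : f.support, ∃ u : B.E, IsUnit u ∧ B.ph α 0
      = u * if h : (α : σ →₀ ℕ) ∈ B.Pf then B.lv (B.lam α) else 1 := by
    intro α
    by_cases h : (α : σ →₀ ℕ) ∈ B.Pf
    · have hb : B.b0 α = B.nn ⟨α, h⟩ := dif_pos h
      obtain ⟨u, hu1, hu2⟩ := gam_assoc (B.ph_succ α α.2) (B.ph_base α.2) (t := 0)
        (by rw [hb]; exact B.nn_neg _) (fun r hr hr' => B.th_unit α α.2 r (by
          rw [B.nn_eq ⟨α, h⟩]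
          intro h9
          have : B.nn ⟨α, h⟩ = r := by exact_mod_cast h9
          rw [hb] at hr
          omega))
      refine ⟨-u, hu1.neg, ?_⟩
      rw [hu2, dif_pos h, hb]
      have h3 : B.th α - ((B.nn ⟨α, h⟩ : ℤ) : B.E) = - B.lv (B.lam α) := B.th_Pf ⟨α, h⟩
      rw [h3]
      ring
    · have hb : B.b0 α = 0 := dif_neg h
      have := B.ph_base α.2
      rw [hb] at this
      exact ⟨1, isUnit_one, by rw [this, dif_neg h, one_mul]⟩
  choose u hu1 hu2 using h2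
  refine ⟨∏ α, u α, ?_, ?_⟩
  · rw [← Units.isUnit_units_mul 1, Units.val_one, one_mul]
    exact IsUnit.prod_univ_iff.2 hu1
  · rw [h1, Finset.prod_congr rfl fun α _ => hu2 α, Finset.prod_mul_distrib]
    congr 1
    symm
    refine Finset.prod_bij_ne_one (fun i _ _ => (⟨i, B.Pf_sub i.2⟩ : f.support))
      (fun i _ _ => Finset.mem_univ _) (fun i _ _ j _ _ h => Subtype.ext
        (congrArg (fun x : f.support => (x : σ →₀ ℕ)) h)) ?_ ?_
    · intro α _ hne
      by_cases h : (α : σ →₀ ℕ) ∈ B.Pf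
      · rw [dif_pos h] at hne
        exact ⟨⟨α, h⟩, Finset.mem_univ _, hne, rfl⟩
      · rw [dif_neg h] at hne
        exact absurd rfl hne
    · intro i _ _
      rw [dif_pos i.2]

theorem psi_zero (hA : Alg2Stmt) : psiF f B.ph 0 0 ≠ 0 := by
  have h1 : psiF f B.ph 0 0 = cf f B.ph 0 := by
    unfold psiF ws
    rw [finsum_eq_single _ (0 : f.support → ℤ)]
    · rw [if_pos]
      unfold idx
      exact ⟨by simp, fun j => by simp⟩
    · intro t ht
      split_ifs with h2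
      · by_contra h3
        exact ht (B.cf_zero_of h2 h3)
      · rfl
  obtain ⟨u, hu, h2⟩ := B.cf_zero_eq
  have h4 : ∏ i : B.Pf, B.lv (B.lam i) = (∏ i, B.lin (B.lW i)) *
      ∏ i, B.lin (fun ρ => (B.aW i ρ : ℚ)) := by
    have h5 := B.prod_split (fun α => B.lv (B.lam α)) Finset.univ
    rw [h5]
    congr 1
    · refine Finset.prod_congr ?_ fun i _ => rfl
      ext i
      simp
    · refine Finset.prod_congr ?_ fun i _ => B.lv_apex i
      ext i
      simp
  rw [h1, h2, h4]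
  intro h3
  exact vertex2_ne B.lW B.aW B.bW B.gW hA B.gW_pos B.bounded B.starW
    ((hu.mul_right_eq_zero).1 h3)

/-- `psi 0` vanishes at the positive multiples of the unit vector of `z` -/
theorem psi_pos (hz : κ z ≠ 0) (e : ℕ) (he : e ≠ 0) :
    psiF f B.ph 0 (fun i => if i = z then (e : ℤ) else 0) = 0 := by
  unfold psiF
  have h1 : ws f (cf f B.ph) 0 (fun i => if i = z then (e : ℤ) else 0)
      = ws f (fun _ => (0 : B.E)) 0 (fun i => if i = z then (e : ℤ) else 0) := by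
    refine ws_congr fun t ht => ?_
    by_contra hne
    obtain ⟨u, hu⟩ := B.exists_u (A := ∅) (t := t) (by rwa [Finset.prod_empty, one_mul])
    have h2 := keyR u (B.N : ℝ) ht.1 ht.2
    have h3 : ∑ α : f.support, (t α : ℝ) * (dot u (α : σ →₀ ℕ) - B.N) ≤ 0 :=
      Finset.sum_nonpos fun α _ => B.sign hu α
    have h4 : ∑ j, u j * (((if j = z then (e : ℤ) else 0 : ℤ)) : ℝ) = κ z * e := by
      rw [Finset.sum_eq_single z]
      · rw [if_pos rfl, hu.2.2.2.2.2.2.2.2]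
        push_cast
        rfl
      · intro j _ hj
        rw [if_neg hj]
        simp
      · intro h; exact absurd (Finset.mem_univ _) h
    rw [h4] at h2
    have h5 : (0 : ℝ) < (κ z : ℝ) * e := by
      have h6 : 0 < κ z * e := Nat.mul_pos (Nat.pos_of_ne_zero hz) (Nat.pos_of_ne_zero he)
      exact_mod_cast h6
    push_cast at h2
    linarith
  rw [h1, ws_zero]

end BZ

end Pool.Agent.GEN.H88
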